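import Pool.Agent.W559.GF.Stm

set_option autoImplicit false
set_option linter.unusedVariables false

/-! Two separated schemes with the same atlas are isomorphic. -/

open AlgebraicGeometry CategoryTheory Limits

namespace Pool.Agent.W930.GF

open Pool.Agent.W559.GF

/-- the morphism of the generic point -/
noncomputable abbrev io {F : Type} [Field F] (A : Subring F) :
    Spec (CommRingCat.of F) ⟶ Spec (CommRingCat.of A) :=
  Spec.map (CommRingCat.ofHom A.subtype)

lemma io_dense {F : Type} [Field F] (A : Subring F) : DenseRange (io A) := by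
  have h : DenseRange (PrimeSpectrum.comap A.subtype) := by
    rw [PrimeSpectrum.denseRange_comap_iff_ker_le_nilRadical]
    have : RingHom.ker A.subtype = ⊥ := (RingHom.injective_iff_ker_eq_bot _).1 A.subtype_injective
    rw [this]
    exact bot_le
  exact h

lemma io_mono {F : Type} [Field F] (A : Subring F) {R : Type} [CommRing R]
    (a b : Spec (CommRingCat.of A) ⟶ Spec (CommRingCat.of R)) (h : io A ≫ a = io A ≫ b) :
    a = b := by
  have : IsDominant (io A) := ⟨io_dense A⟩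
  exact ext_of_isDominant_of_isSeparated (terminal.from _) (terminal.hom_ext _ _) (io A) h

lemma glue {R F : Type} [CommRing R] [Field F] {Z Z' : Scheme.{0}}
    (f : Z ⟶ Spec (CommRingCat.of R)) (f' : Z' ⟶ Spec (CommRingCat.of R)) [IsSeparated f']
    {T : Type} (A : T → Subring F) (η : Spec (CommRingCat.of F) ⟶ Z)
    (η' : Spec (CommRingCat.of F) ⟶ Z') (j : ∀ t, Spec (CommRingCat.of (A t)) ⟶ Z)
    (hj : ∀ t, IsOpenImmersion (j t)) (hcov : ∀ z : Z, ∃ t y, j t y = z)
    (hη : ∀ t, io (A t) ≫ j t = η) (j' : ∀ t, Spec (CommRingCat.of (A t)) ⟶ Z')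
    (hη' : ∀ t, io (A t) ≫ j' t = η') (hjj : ∀ t, j t ≫ f = j' t ≫ f') :
    ∃ φ : Z ⟶ Z', ∀ t, j t ≫ φ = j' t := by
  let 𝒰 : Scheme.OpenCover.{0} Z := Scheme.Cover.mkOfCovers T
    (fun t => Spec (CommRingCat.of (A t))) j hcov hj
  have hcomp : ∀ x y, pullback.fst (j x) (j y) ≫ j' x = pullback.snd (j x) (j y) ≫ j' y := by
    intro x y
    have := hj x
    have := hj y
    have hred : IsReduced (pullback (j x) (j y)) :=
      isReduced_of_isOpenImmersion (pullback.fst (j x) (j y))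
    let ι : Spec (CommRingCat.of F) ⟶ pullback (j x) (j y) :=
      pullback.lift (io (A x)) (io (A y)) (by rw [hη, hη])
    have h1 : ι ≫ pullback.fst (j x) (j y) = io (A x) := pullback.lift_fst _ _ _
    have h2 : ι ≫ pullback.snd (j x) (j y) = io (A y) := pullback.lift_snd _ _ _
    have hdom : IsDominant ι := by
      refine ⟨?_⟩
      rw [DenseRange, dense_iff_inter_open]
      rintro U hU ⟨u, hu⟩
      have hemb := (pullback.fst (j x) (j y)).isOpenEmbedding
      obtain ⟨z, ⟨u', hu', hz⟩, ⟨w, hw⟩⟩ := dense_iff_inter_open.1 (io_dense (A x)) _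
        (hemb.isOpenMap U hU) ⟨_, ⟨u, hu, rfl⟩⟩
      refine ⟨ι w, ?_, ⟨w, rfl⟩⟩
      have h3 : pullback.fst (j x) (j y) (ι w) = pullback.fst (j x) (j y) u' := by
        rw [← Scheme.Hom.comp_apply, h1, hz, hw]
      rw [hemb.injective h3]
      exact hu'
    refine ext_of_isDominant_of_isSeparated f' ?_ ι ?_
    · rw [Category.assoc, Category.assoc, ← hjj, ← hjj, ← Category.assoc, ← Category.assoc,
        pullback.condition]
    · rw [← Category.assoc, ← Category.assoc, h1, h2, hη', hη']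
  refine ⟨𝒰.glueMorphisms j' hcomp, fun t => ?_⟩
  exact Scheme.Cover.ι_glueMorphisms 𝒰 j' hcomp t

theorem iso : IsoStm := by
  intro R F _ _ Z Z' s f f' hf hf' T A h h'
  obtain ⟨η, hηf, U, hU, hc⟩ := h
  obtain ⟨η', hηf', U', hU', hc'⟩ := h'
  choose j hj hjU hjη using hc
  choose j' hj' hjU' hjη' using hc'
  have hjj : ∀ t, j t ≫ f = j' t ≫ f' := by
    intro t
    apply io_mono
    rw [← Category.assoc, ← Category.assoc]
    change (io (A t) ≫ j t) ≫ f = (io (A t) ≫ j' t) ≫ f'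
    rw [show io (A t) ≫ j t = η from hjη t, show io (A t) ≫ j' t = η' from hjη' t, hηf, hηf']
  have hcov : ∀ z : Z, ∃ t y, j t y = z := by
    intro z
    have h1 : z ∈ ⨆ t, U t := by rw [hU]; trivial
    rw [TopologicalSpace.Opens.mem_iSup] at h1
    obtain ⟨t, ht⟩ := h1
    rw [← hjU t] at ht
    obtain ⟨y, hy⟩ := ht
    exact ⟨t, y, hy⟩
  have hcov' : ∀ z : Z', ∃ t y, j' t y = z := by
    intro z
    have h1 : z ∈ ⨆ t, U' t := by rw [hU']; trivial
    rw [TopologicalSpace.Opens.mem_iSup] at h1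
    obtain ⟨t, ht⟩ := h1
    rw [← hjU' t] at ht
    obtain ⟨y, hy⟩ := ht
    exact ⟨t, y, hy⟩
  obtain ⟨φ, hφ⟩ := glue f f' A η η' j hj hcov hjη j' hjη' hjj
  obtain ⟨ψ, hψ⟩ := glue f' f A η' η j' hj' hcov' hjη' j hjη (fun t => (hjj t).symm)
  let 𝒰 : Scheme.OpenCover.{0} Z := Scheme.Cover.mkOfCovers T
    (fun t => Spec (CommRingCat.of (A t))) j hcov hj
  let 𝒰' : Scheme.OpenCover.{0} Z' := Scheme.Cover.mkOfCovers T
    (fun t => Spec (CommRingCat.of (A t))) j' hcov' hj'
  refine ⟨⟨φ, ψ, ?_, ?_⟩, ?_⟩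
  · refine Scheme.Cover.hom_ext 𝒰 _ _ fun t => ?_
    change j t ≫ φ ≫ ψ = j t ≫ 𝟙 Z
    rw [← Category.assoc, hφ, hψ, Category.comp_id]
  · refine Scheme.Cover.hom_ext 𝒰' _ _ fun t => ?_
    change j' t ≫ ψ ≫ φ = j' t ≫ 𝟙 Z'
    rw [← Category.assoc, hψ, hφ, Category.comp_id]
  · refine Scheme.Cover.hom_ext 𝒰 _ _ fun t => ?_
    change j t ≫ φ ≫ f' = j t ≫ f
    rw [← Category.assoc, hφ, hjj]

end Pool.Agent.W930.GF
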